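import Pool.Agent.NNr.R11_2_5_7.D0
import Pool.Agent.NNr.R11_2_5_7.D1
import Pool.Agent.NNr.R11_2_5_7.D2
import Pool.Agent.NNr.R11_2_5_7.D3
import Pool.Agent.NNe.Slots

set_option linter.all false
set_option maxRecDepth 1000000
namespace Pool.Agent.NNr.R11_2_5_7

open Pool.Agent.NNe

def ti3_2 : tileCk (nat_lit 15) (nat_lit 7) (nat_lit 2) (nat_lit 3) (nat_lit 5) (nat_lit 11) (nat_lit 12) ZL3_2 CL3 = true := by decide +kernel
def zl3_2 : zlOK (nat_lit 5) ZL3_2 = true := by decide +kernel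
def tc3_0 : tiCov (nat_lit 1) (nat_lit 0) ZZ3 C3_0 = true := by decide +kernel
def tc3_1 : tiCov (nat_lit 1) (nat_lit 1) ZZ3 C3_1 = true := by decide +kernel
def tc3_2 : tiCov (nat_lit 1) (nat_lit 2) ZZ3 C3_2 = true := by decide +kernel
def tc3_3 : tiCov (nat_lit 1) (nat_lit 3) ZZ3 C3_3 = true := by decide +kernel
def tc3_4 : tiCov (nat_lit 1) (nat_lit 4) ZZ3 C3_4 = true := by decide +kernel
def tc3_8 : tiCov (nat_lit 1) (nat_lit 8) ZZ3 C3_8 = true := by decide +kernel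
def tc3_9 : tiCov (nat_lit 1) (nat_lit 9) ZZ3 C3_9 = true := by decide +kernel
def tc3_10 : tiCov (nat_lit 1) (nat_lit 10) ZZ3 C3_10 = true := by decide +kernel
def de3_0 : deadCk (nat_lit 15) (nat_lit 7) C3_0 = true := by decide +kernel
def de3_1 : deadCk (nat_lit 15) (nat_lit 7) C3_1 = true := by decide +kernel
def de3_2 : deadCk (nat_lit 15) (nat_lit 7) C3_2 = true := by decide +kernel
def de3_3 : deadCk (nat_lit 15) (nat_lit 7) C3_3 = true := by decide +kernel
def de3_4 : deadCk (nat_lit 15) (nat_lit 7) C3_4 = true := by decide +kernel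
def de3_8 : deadCk (nat_lit 15) (nat_lit 7) C3_8 = true := by decide +kernel
def de3_9 : deadCk (nat_lit 15) (nat_lit 7) C3_9 = true := by decide +kernel
def de3_10 : deadCk (nat_lit 15) (nat_lit 7) C3_10 = true := by decide +kernel
def wf1_5 : wfC (nat_lit 61) (nat_lit 18) C1_5 = true := by decide +kernel
def wf1_6 : wfC (nat_lit 61) (nat_lit 18) C1_6 = true := by decide +kernel
def wf1_7 : wfC (nat_lit 61) (nat_lit 18) C1_7 = true := by decide +kernel
def rf1_5 : rfCk (nat_lit 58) (nat_lit 8) (nat_lit 61) (nat_lit 18) (nat_lit 1) (nat_lit 262144) (nat_lit 5) TL1 CL0 CL1 = true := by decide +kernel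
def rf1_6 : rfCk (nat_lit 58) (nat_lit 8) (nat_lit 61) (nat_lit 18) (nat_lit 1) (nat_lit 262144) (nat_lit 6) TL1 CL0 CL1 = true := by decide +kernel
def rf1_7 : rfCk (nat_lit 58) (nat_lit 8) (nat_lit 61) (nat_lit 18) (nat_lit 1) (nat_lit 262144) (nat_lit 7) TL1 CL0 CL1 = true := by decide +kernel
def sc1_5 : stCov (nat_lit 0) (nat_lit 0) Rl.nil C1_5 = true := by decide +kernel
def sc1_6 : stCov (nat_lit 0) (nat_lit 0) Rl.nil C1_6 = true := by decide +kernel
def sc1_7 : stCov (nat_lit 0) (nat_lit 0) Rl.nil C1_7 = true := by decide +kernel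
def tc1_5 : tiCov (nat_lit 1) (nat_lit 5) ZZ1 C1_5 = true := by decide +kernel
def tc1_6 : tiCov (nat_lit 1) (nat_lit 6) ZZ1 C1_6 = true := by decide +kernel
def tc1_7 : tiCov (nat_lit 1) (nat_lit 7) ZZ1 C1_7 = true := by decide +kernel
def wf2_5 : wfC (nat_lit 61) (nat_lit 15) C2_5 = true := by decide +kernel
def wf2_6 : wfC (nat_lit 61) (nat_lit 15) C2_6 = true := by decide +kernel
def wf2_7 : wfC (nat_lit 61) (nat_lit 15) C2_7 = true := by decide +kernel
def rf2_5 : rfCk (nat_lit 61) (nat_lit 18) (nat_lit 61) (nat_lit 15) (nat_lit 4) (nat_lit 524288) (nat_lit 5) TL2 CL1 CL2 = true := by decide +kernel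
def rf2_6 : rfCk (nat_lit 61) (nat_lit 18) (nat_lit 61) (nat_lit 15) (nat_lit 4) (nat_lit 524288) (nat_lit 6) TL2 CL1 CL2 = true := by decide +kernel
def rf2_7 : rfCk (nat_lit 61) (nat_lit 18) (nat_lit 61) (nat_lit 15) (nat_lit 4) (nat_lit 524288) (nat_lit 7) TL2 CL1 CL2 = true := by decide +kernel
def sc2_5 : stCov (nat_lit 0) (nat_lit 0) Rl.nil C2_5 = true := by decide +kernel
def sc2_6 : stCov (nat_lit 0) (nat_lit 0) Rl.nil C2_6 = true := by decide +kernel
def sc2_7 : stCov (nat_lit 0) (nat_lit 0) Rl.nil C2_7 = true := by decide +kernel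
def tc2_5 : tiCov (nat_lit 1) (nat_lit 5) ZZ2 C2_5 = true := by decide +kernel
def tc2_6 : tiCov (nat_lit 1) (nat_lit 6) ZZ2 C2_6 = true := by decide +kernel
def tc2_7 : tiCov (nat_lit 1) (nat_lit 7) ZZ2 C2_7 = true := by decide +kernel
def wf3_5 : wfC (nat_lit 15) (nat_lit 7) C3_5 = true := by decide +kernel
def wf3_6 : wfC (nat_lit 15) (nat_lit 7) C3_6 = true := by decide +kernel
def wf3_7 : wfC (nat_lit 15) (nat_lit 7) C3_7 = true := by decide +kernel
def wf3_11 : wfC (nat_lit 15) (nat_lit 7) C3_11 = true := by decide +kernel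
def rf3_5 : rfCk (nat_lit 61) (nat_lit 15) (nat_lit 15) (nat_lit 7) (nat_lit 9) (nat_lit 0) (nat_lit 5) TL3 CL2 CL3 = true := by decide +kernel
def rf3_6 : rfCk (nat_lit 61) (nat_lit 15) (nat_lit 15) (nat_lit 7) (nat_lit 9) (nat_lit 0) (nat_lit 6) TL3 CL2 CL3 = true := by decide +kernel
def rf3_7 : rfCk (nat_lit 61) (nat_lit 15) (nat_lit 15) (nat_lit 7) (nat_lit 9) (nat_lit 0) (nat_lit 7) TL3 CL2 CL3 = true := by decide +kernel
def rf3_11 : rfCk (nat_lit 61) (nat_lit 15) (nat_lit 15) (nat_lit 7) (nat_lit 9) (nat_lit 0) (nat_lit 11) TL3 CL2 CL3 = true := by decide +kernel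
def sc3_5 : stCov (nat_lit 0) (nat_lit 0) Rl.nil C3_5 = true := by decide +kernel
def sc3_6 : stCov (nat_lit 0) (nat_lit 0) Rl.nil C3_6 = true := by decide +kernel
def sc3_7 : stCov (nat_lit 0) (nat_lit 0) Rl.nil C3_7 = true := by decide +kernel
def sc3_11 : stCov (nat_lit 0) (nat_lit 0) Rl.nil C3_11 = true := by decide +kernel
def tc3_5 : tiCov (nat_lit 1) (nat_lit 5) ZZ3 C3_5 = true := by decide +kernel
def tc3_6 : tiCov (nat_lit 1) (nat_lit 6) ZZ3 C3_6 = true := by decide +kernel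
def tc3_7 : tiCov (nat_lit 1) (nat_lit 7) ZZ3 C3_7 = true := by decide +kernel
def tc3_11 : tiCov (nat_lit 1) (nat_lit 11) ZZ3 C3_11 = true := by decide +kernel
def de3_5 : deadCk (nat_lit 15) (nat_lit 7) C3_5 = true := by decide +kernel
def de3_6 : deadCk (nat_lit 15) (nat_lit 7) C3_6 = true := by decide +kernel
def de3_7 : deadCk (nat_lit 15) (nat_lit 7) C3_7 = true := by decide +kernel
def de3_11 : deadCk (nat_lit 15) (nat_lit 7) C3_11 = true := by decide +kernel

end Pool.Agent.NNr.R11_2_5_7
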